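import Pool.Agent.H43.PJ.M52
import Pool.Agent.H43.PJ.M53
import Pool.Agent.H43.PJ.M81

/-!
# TN Cnt: upper bounds for the types (parameters of the `5/24` version; compare `H9/TM/Cnt.lean`, whose private lemmas can be copied)

* `covm` (with multiplicity): `∑_{i ∈ ι} #{r prime : x < d_i r ≤ x + l} = ∑_{m ∈ (x,x+l]} #{i : m = d_i r, r prime} ≥ ∑_{m ∈ A} w m` and `pnt_int` as in `cov` (`TM/Cnt.lean`).
* `rareN`: as `rare` (`TM/Cnt.lean`) with `z ≥ N^(2082/10000)`.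
* `cnt_zero`: `cov` and `s0_le` (`0.6028 (1 + ε) ≤ 0.603`); `cnt_one`: `s1 + s2 + rare`: `0.7355 + 0.0540 + .. ≤ 0.790`.
* `cnt_pair`: `A` = the numbers with `om = 2` (weight 1) or (`om = 3`, `IsT`) (weight 3), without the `sqz` ones: `p q r` with three small primes `p < q < r` is `d · prime` for the three pairs `(p,q), (p,r), (q,r)` of
  `ι = {(p, q) : p < q}`; `covm` with the pair sum `s3_le` (`0.3285 (1 + ε)`), `rare` for the `sqz` ones (3 times): `≤ 0.330`.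
* `cnt_four`: `cov` and `s4_le` for `IsF` (`0.0098 (1+ε)`), plus `rare` for the numbers with `om = 3`, `sqz`, not `IsF`.
Conditions of `pnt_int` (`d ≤ x/N^e0`, `e0 = 1/20`): `d = p ≤ 4 N^(1/2)`; `d = p q ≤ 16 N/q`, `q > N^0.35`; `d = p q ≤ N^0.7082`; `d = p q r ≤ N^0.9`.
-/

set_option autoImplicit false

namespace Pool.Agent.H9.TN

open Finset MeasureTheory
open Pool.Agent.H76.TP
open Pool.Agent.H9.TM (PE rou omz sqz cov)

/-- multiples of `d` in a short interval -/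
private theorem Cnt_mult (x l d : ℕ) (hd : 0 < d) :
    (((Ioc x (x + l)).filter (fun m => d ∣ m)).card : ℝ) ≤ l / d + 1 := by
  have hsub : (Ioc x (x + l)).filter (fun m => d ∣ m) ⊆
      (Ioc (x / d) ((x + l) / d)).image (fun k => d * k) := by
    intro m hm
    rw [mem_filter, mem_Ioc] at hm
    obtain ⟨⟨h1, h2⟩, k, hk⟩ := hm
    rw [mem_image]
    refine ⟨k, ?_, hk.symm⟩
    rw [mem_Ioc]
    refine ⟨?_, ?_⟩
    · rw [Nat.div_lt_iff_lt_mul hd, mul_comm, ← hk]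
      exact h1
    · rw [Nat.le_div_iff_mul_le hd, mul_comm, ← hk]
      exact h2
  have h1 : ((Ioc x (x + l)).filter (fun m => d ∣ m)).card ≤ (x + l) / d - x / d :=
    (card_le_card hsub).trans (card_image_le.trans (by rw [Nat.card_Ioc]))
  have h2 : x / d ≤ (x + l) / d := Nat.div_le_div_right (Nat.le_add_right _ _)
  have h3 : (((Ioc x (x + l)).filter (fun m => d ∣ m)).card : ℝ) ≤
      (((x + l) / d : ℕ) : ℝ) - ((x / d : ℕ) : ℝ) := by
    rw [← Nat.cast_sub h2]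
    exact_mod_cast h1
  have h4 : (((x + l) / d : ℕ) : ℝ) ≤ ((x + l : ℕ) : ℝ) / d := Nat.cast_div_le
  have hdR : (0 : ℝ) < d := by exact_mod_cast hd
  have h5 : (x : ℝ) / d < ((x / d : ℕ) : ℝ) + 1 := by
    rw [div_lt_iff₀ hdR]
    have : x < (x / d + 1) * d := by
      have := Nat.lt_div_mul_add hd (a := x)
      linarith [this, add_mul (x / d) 1 d, one_mul d]
    exact_mod_cast this
  have h6 : ((x + l : ℕ) : ℝ) / d = (x : ℝ) / d + l / d := by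
    push_cast
    rw [add_div]
  linarith

/-- multiples of large squares in a short interval -/
private theorem Cnt_sq (x l M R : ℕ) (hM : 1 ≤ M) :
    (((Ioc M R).biUnion (fun p => (Ioc x (x + l)).filter (fun m => p ^ 2 ∣ m))).card : ℝ) ≤
      l / M + R := by
  have h1 : (((Ioc M R).biUnion
      (fun p => (Ioc x (x + l)).filter (fun m => p ^ 2 ∣ m))).card : ℝ) ≤
      ∑ p ∈ Ioc M R, (((Ioc x (x + l)).filter (fun m => p ^ 2 ∣ m)).card : ℝ) := by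
    have := card_biUnion_le (s := Ioc M R)
      (t := fun p => (Ioc x (x + l)).filter (fun m => p ^ 2 ∣ m))
    exact_mod_cast this
  have h2 : ∑ p ∈ Ioc M R, (((Ioc x (x + l)).filter (fun m => p ^ 2 ∣ m)).card : ℝ) ≤
      ∑ p ∈ Ioc M R, ((l : ℝ) * ((p : ℝ) ^ 2)⁻¹ + 1) := by
    refine sum_le_sum fun p hp => ?_
    rw [mem_Ioc] at hp
    have h3 := Cnt_mult x l (p ^ 2) (by have : 0 < p := by omega
                                        positivity)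
    rw [Nat.cast_pow, div_eq_mul_inv] at h3
    exact h3
  have hM0 : (0 : ℝ) < M := by exact_mod_cast hM
  have h3 : ∑ p ∈ Ioc M R, ((p : ℝ) ^ 2)⁻¹ ≤ (M : ℝ)⁻¹ := by
    rcases le_or_gt M R with h | h
    · have h4 := sum_Ioc_inv_sq_le_sub (α := ℝ) (k := M) (n := R) (by omega) h
      have h5 : (0 : ℝ) ≤ (R : ℝ)⁻¹ := by positivity
      linarith
    · rw [Ioc_eq_empty (by omega), sum_empty]
      positivity
  have h4 : ((Ioc M R).card : ℝ) ≤ R := by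
    rw [Nat.card_Ioc]
    exact_mod_cast Nat.sub_le _ _
  have hl0 : (0 : ℝ) ≤ l := Nat.cast_nonneg l
  calc _ ≤ ∑ p ∈ Ioc M R, ((l : ℝ) * ((p : ℝ) ^ 2)⁻¹ + 1) := h1.trans h2
    _ = (l : ℝ) * ∑ p ∈ Ioc M R, ((p : ℝ) ^ 2)⁻¹ + (Ioc M R).card := by
        rw [sum_add_distrib, ← mul_sum, sum_const, nsmul_eq_mul, mul_one]
    _ ≤ (l : ℝ) * (M : ℝ)⁻¹ + R := add_le_add (mul_le_mul_of_nonneg_left h3 hl0) h4
    _ = l / M + R := by rw [div_eq_mul_inv]

/-- powers beat constants -/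
private theorem Cnt_pow (c : ℝ) (hc : 0 < c) (C : ℝ) : ∃ N0 : ℕ, ∀ N : ℕ, N0 ≤ N → C ≤ (N : ℝ) ^ c := by
  have h := ((tendsto_rpow_atTop hc).comp (tendsto_natCast_atTop_atTop (R := ℝ))).eventually
    (Filter.eventually_ge_atTop C)
  rw [Filter.eventually_atTop] at h
  obtain ⟨N0, hN0⟩ := h
  exact ⟨N0, fun N hN => hN0 N hN⟩

/-- powers of `N` beat powers of `log N` -/
private theorem Cnt_log (K : ℕ) (c C : ℝ) (hc : 0 < c) (hC : 0 < C) : ∃ N0 : ℕ, ∀ N : ℕ, N0 ≤ N →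
    1 ≤ Real.log N ∧ C * Real.log N ^ K ≤ (N : ℝ) ^ c := by
  have hN : Filter.Tendsto (fun N : ℕ => (N : ℝ)) Filter.atTop Filter.atTop := tendsto_natCast_atTop_atTop
  have h1 := (Real.tendsto_log_atTop.comp hN).eventually (Filter.eventually_ge_atTop (1 : ℝ))
  have h4 := hN.eventually ((isLittleO_log_rpow_rpow_atTop (K : ℝ) hc).def (inv_pos.2 hC))
  obtain ⟨N0, hN0⟩ := Filter.eventually_atTop.mp (h1.and h4)
  refine ⟨N0, fun N hNN => ?_⟩
  obtain ⟨g1, g4⟩ := hN0 N hNN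
  have g1' : (1 : ℝ) ≤ Real.log N := g1
  refine ⟨g1', ?_⟩
  rw [Real.norm_of_nonneg (Real.rpow_nonneg (by linarith) _),
    Real.norm_of_nonneg (Real.rpow_nonneg (Nat.cast_nonneg N) _), Real.rpow_natCast] at g4
  rw [inv_mul_eq_div, le_div_iff₀ hC] at g4
  linarith

/-- `N^e0 d ≤ x` if `d ≤ c N^t`, `e0 + t < 1` -/
private theorem Cnt_size (t c : ℝ) (ht : t < 19 / 20) (_hc : 0 < c) : ∃ N0 : ℕ, ∀ N : ℕ, N0 ≤ N → ∀ x : ℕ, N ≤ 8 * x →
    ∀ d : ℕ, (d : ℝ) ≤ c * (N : ℝ) ^ t → (N : ℝ) ^ (1 / 20 : ℝ) * d ≤ x := by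
  obtain ⟨N0, hN0⟩ := Cnt_pow (19 / 20 - t) (by linarith) (8 * c)
  refine ⟨max 1 N0, fun N hN x hx d hd => ?_⟩
  have hN1 : 1 ≤ N := le_trans (le_max_left _ _) hN
  have hNpos : (0 : ℝ) < N := by exact_mod_cast hN1
  have h1 := hN0 N (le_trans (le_max_right _ _) hN)
  have hx' : (N : ℝ) ≤ 8 * x := by exact_mod_cast hx
  have h2 : (N : ℝ) = (N : ℝ) ^ (19 / 20 - t) * ((N : ℝ) ^ (1 / 20 : ℝ) * (N : ℝ) ^ t) := by
    rw [← Real.rpow_add hNpos, ← Real.rpow_add hNpos]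
    have : (19 / 20 - t + (1 / 20 + t) : ℝ) = 1 := by ring
    rw [this, Real.rpow_one]
  have h3 : 0 < (N : ℝ) ^ (1 / 20 : ℝ) := by positivity
  have h4 : 0 < (N : ℝ) ^ t := by positivity
  have h5 : (N : ℝ) ^ (1 / 20 : ℝ) * d ≤ (N : ℝ) ^ (1 / 20 : ℝ) * (c * (N : ℝ) ^ t) :=
    mul_le_mul_of_nonneg_left hd h3.le
  have h6 : 8 * c * ((N : ℝ) ^ (1 / 20 : ℝ) * (N : ℝ) ^ t) ≤ N := by
    calc 8 * c * ((N : ℝ) ^ (1 / 20 : ℝ) * (N : ℝ) ^ t)
        ≤ (N : ℝ) ^ (19 / 20 - t) * ((N : ℝ) ^ (1 / 20 : ℝ) * (N : ℝ) ^ t) :=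
          mul_le_mul_of_nonneg_right h1 (by positivity)
      _ = N := h2.symm
  nlinarith

/-- members of `PE` -/
private theorem Cnt_PE {N : ℕ} {s t : ℝ} {p : ℕ} (hp : p ∈ PE N s t) :
    p.Prime ∧ (N : ℝ) ^ s < p ∧ (p : ℝ) ≤ (N : ℝ) ^ t := by
  unfold PE at hp
  rw [mem_filter] at hp
  exact hp.2

open Classical in
theorem rareN (K : ℕ) (ε : ℝ) (hε : 0 < ε) : ∃ N0 : ℕ, ∀ N : ℕ, N0 ≤ N → ∀ z x l : ℕ, (N : ℝ) ^ (2082 / 10000 : ℝ) ≤ z →
    N ≤ 8 * x → x ≤ 8 * N → (x : ℝ) / Real.log N ^ K ≤ l → l ≤ x →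
      (((Ioc x (x + l)).filter (fun m => sqz z m)).card : ℝ) ≤ ε * l / Real.log N := by
  obtain ⟨N1, hN1⟩ := Cnt_log 1 (2082 / 10000) (2 / ε) (by norm_num) (by positivity)
  obtain ⟨N2, hN2⟩ := Cnt_log (K + 1) (1 / 2) (64 / ε) (by norm_num) (by positivity)
  refine ⟨max 1 (max N1 N2), fun N hN z x l hz hx1 hx2 hl hlx => ?_⟩
  have hNone : 1 ≤ N := le_trans (le_max_left _ _) hN
  obtain ⟨hL1, h1⟩ := hN1 N (le_trans (le_trans (le_max_left _ _) (le_max_right _ _)) hN)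
  obtain ⟨-, h2⟩ := hN2 N (le_trans (le_trans (le_max_right _ _) (le_max_right _ _)) hN)
  have hNpos : (0 : ℝ) < N := by exact_mod_cast hNone
  have hL : (0 : ℝ) < Real.log N := by linarith
  rw [pow_one] at h1
  have hzpos : (0 : ℝ) < z := lt_of_lt_of_le (by positivity) hz
  have hz1 : 1 ≤ z := by
    have : 0 < z := by exact_mod_cast hzpos
    exact this
  have hsub : (Ioc x (x + l)).filter (fun m => sqz z m) ⊆
      (Ioc z (Nat.sqrt (16 * N))).biUnion (fun p => (Ioc x (x + l)).filter (fun m => p ^ 2 ∣ m)) := by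
    intro m hm
    rw [mem_filter] at hm
    obtain ⟨hmI, p, hp, hzp, hpm⟩ := hm
    rw [mem_biUnion]
    have hmI' := hmI
    rw [mem_Ioc] at hmI'
    refine ⟨p, ?_, ?_⟩
    · rw [mem_Ioc]
      refine ⟨hzp, ?_⟩
      rw [Nat.le_sqrt]
      have h3 : p ^ 2 ≤ m := Nat.le_of_dvd (by omega) hpm
      have h4 : p * p = p ^ 2 := (sq p).symm
      omega
    · rw [mem_filter]
      exact ⟨hmI, hpm⟩
  have h3 : (((Ioc x (x + l)).filter (fun m => sqz z m)).card : ℝ) ≤ l / z + (Nat.sqrt (16 * N) : ℕ) :=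
    le_trans (by exact_mod_cast card_le_card hsub) (Cnt_sq x l z (Nat.sqrt (16 * N)) hz1)
  have hl0 : (0 : ℝ) ≤ l := Nat.cast_nonneg l
  have h4 : (l : ℝ) / z ≤ ε / 2 * l / Real.log N := by
    rw [div_le_div_iff₀ hzpos hL]
    have h5 : Real.log N ≤ ε / 2 * z := by
      have h6 : 2 / ε * Real.log N ≤ z := h1.trans hz
      have h7 : Real.log N = ε / 2 * (2 / ε * Real.log N) := by
        field_simp
      rw [h7]
      exact mul_le_mul_of_nonneg_left h6 (by positivity)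
    calc (l : ℝ) * Real.log N ≤ l * (ε / 2 * z) := mul_le_mul_of_nonneg_left h5 hl0
      _ = ε / 2 * l * z := by ring
  have h5 : ((Nat.sqrt (16 * N) : ℕ) : ℝ) ≤ ε / 2 * l / Real.log N := by
    have h6 : ((Nat.sqrt (16 * N) : ℕ) : ℝ) ≤ 4 * (N : ℝ) ^ (1 / 2 : ℝ) := by
      have h7 : ((Nat.sqrt (16 * N) : ℕ) : ℝ) ^ 2 ≤ (4 * (N : ℝ) ^ (1 / 2 : ℝ)) ^ 2 := by
        have h8 : (Nat.sqrt (16 * N)) ^ 2 ≤ 16 * N := Nat.sqrt_le' _
        have h9 : ((Nat.sqrt (16 * N) : ℕ) : ℝ) ^ 2 ≤ 16 * N := by exact_mod_cast h8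
        have h10 : (4 * (N : ℝ) ^ (1 / 2 : ℝ)) ^ 2 = 16 * N := by
          rw [mul_pow, ← Real.rpow_natCast, ← Real.rpow_natCast, ← Real.rpow_mul hNpos.le]
          norm_num
        rw [h10]
        exact h9
      exact le_of_sq_le_sq h7 (by positivity)
    refine h6.trans ?_
    rw [le_div_iff₀ hL]
    have hLK : (0 : ℝ) < Real.log N ^ K := by positivity
    have hxl : (x : ℝ) ≤ l * Real.log N ^ K := by
      rw [div_le_iff₀ hLK] at hl
      exact hl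
    have hx' : (N : ℝ) ≤ 8 * x := by exact_mod_cast hx1
    have h7 : (N : ℝ) ≤ 8 * l * Real.log N ^ K := by linarith
    have h8 : (N : ℝ) = (N : ℝ) ^ (1 / 2 : ℝ) * (N : ℝ) ^ (1 / 2 : ℝ) := by
      rw [← Real.rpow_add hNpos]
      norm_num
    have hs : (0 : ℝ) < (N : ℝ) ^ (1 / 2 : ℝ) := by positivity
    -- `4 s L · (64/ε) L^(K+1) ≤ 4 s L s = 4 L N ≤ 32 L l L^K`
    have h9 : 4 * (N : ℝ) ^ (1 / 2 : ℝ) * Real.log N * (64 / ε * Real.log N ^ (K + 1)) ≤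
        ε / 2 * l * (64 / ε * Real.log N ^ (K + 1)) := by
      calc 4 * (N : ℝ) ^ (1 / 2 : ℝ) * Real.log N * (64 / ε * Real.log N ^ (K + 1))
          ≤ 4 * (N : ℝ) ^ (1 / 2 : ℝ) * Real.log N * (N : ℝ) ^ (1 / 2 : ℝ) :=
            mul_le_mul_of_nonneg_left h2 (by positivity)
        _ = 4 * Real.log N * N := by
            rw [mul_assoc, mul_comm (Real.log N), ← mul_assoc, mul_assoc 4, ← h8]
            ring
        _ ≤ 4 * Real.log N * (8 * l * Real.log N ^ K) := mul_le_mul_of_nonneg_left h7 (by positivity)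
        _ = ε / 2 * l * (64 / ε * Real.log N ^ (K + 1)) := by
            rw [pow_succ]
            field_simp
            ring
    exact le_of_mul_le_mul_right h9 (by positivity)
  calc _ ≤ (l : ℝ) / z + (Nat.sqrt (16 * N) : ℕ) := h3
    _ ≤ ε / 2 * l / Real.log N + ε / 2 * l / Real.log N := add_le_add h4 h5
    _ = ε * l / Real.log N := by ring

open Classical in
theorem cnt_one (K : ℕ) : ∃ N0 : ℕ, ∀ N : ℕ, N0 ≤ N → ∀ z z1 x l : ℕ, (N : ℝ) ^ (2082 / 10000 : ℝ) ≤ z →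
    (N : ℝ) ^ (3540 / 10000 : ℝ) ≤ z1 → (z1 : ℝ) ≤ (N : ℝ) ^ (3541 / 10000 : ℝ) → N ≤ 8 * x → x ≤ 8 * N →
    (x : ℝ) / Real.log N ^ K ≤ l → l ≤ x →
      (((Ioc x (x + l)).filter (fun m => ¬ m.Prime ∧ rou z m ∧ omz z z1 m = 1)).card : ℝ) ≤ (790 / 1000) * l / Real.log N := by
  obtain ⟨N1, hN1⟩ := cov K (1 / 20000) (1 / 20) (by norm_num) (by norm_num)
  obtain ⟨N2, hN2⟩ := rareN K (1 / 20000) (by norm_num)
  obtain ⟨N3, hN3⟩ := cls_one
  obtain ⟨N4, hN4⟩ := s1_le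
  obtain ⟨N5, hN5⟩ := s2_le
  obtain ⟨N6, hN6⟩ := Cnt_size (3541 / 10000) 1 (by norm_num) (by norm_num)
  obtain ⟨N7, hN7⟩ := Cnt_size (6460 / 10000) 16 (by norm_num) (by norm_num)
  obtain ⟨N8, hN8⟩ := Cnt_log 1 1 1 (by norm_num) (by norm_num)
  refine ⟨1 + N1 + N2 + N3 + N4 + N5 + N6 + N7 + N8, fun N hN z z1 x l hz hz1 hz1' hx1 hx2 hl hlx => ?_⟩
  have hc1 := hN1 N (by omega) x l hx1 hx2 hl hlx
  have hr := hN2 N (by omega) z x l hz hx1 hx2 hl hlx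
  have hcls := hN3 N (by omega) z z1
  have hs1 := hN4 N (by omega) x hx1 hx2
  have hs2 := hN5 N (by omega) x hx1 hx2
  have hsz1 := hN6 N (by omega) x hx1
  have hsz2 := hN7 N (by omega) x hx1
  obtain ⟨hL1, -⟩ := hN8 N (by omega)
  have hL : (0 : ℝ) < Real.log N := by linarith
  have hNpos : (0 : ℝ) < N := by
    have : 0 < N := by omega
    exact_mod_cast this
  have hl0 : (0 : ℝ) ≤ l := Nat.cast_nonneg l
  obtain ⟨P, hP⟩ : ∃ P, P = PE N (2082 / 10000) (3541 / 10000) := ⟨_, rfl⟩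
  obtain ⟨Q, hQ⟩ : ∃ Q : ℕ → Finset ℕ, Q = fun p =>
    (Icc 1 (16 * N)).filter (fun q : ℕ => q.Prime ∧ (N : ℝ) ^ (3540 / 10000 : ℝ) < q ∧ p * q ^ 2 ≤ 16 * N) := ⟨_, rfl⟩
  obtain ⟨A1, hA1⟩ : ∃ A1 : Finset ℕ, A1 = (Ioc x (x + l)).filter (fun m => ∃ p ∈ P, ∃ q : ℕ, q.Prime ∧ m = p * q) := ⟨_, rfl⟩
  obtain ⟨A2, hA2⟩ : ∃ A2 : Finset ℕ, A2 = (Ioc x (x + l)).filter
    (fun m => ∃ p ∈ P, ∃ q ∈ Q p, ∃ r : ℕ, r.Prime ∧ m = p * q * r) := ⟨_, rfl⟩
  have hsub : (Ioc x (x + l)).filter (fun m => ¬ m.Prime ∧ rou z m ∧ omz z z1 m = 1) ⊆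
      (A1 ∪ A2) ∪ (Ioc x (x + l)).filter (fun m => sqz z m) := by
    intro m hm
    rw [mem_filter] at hm
    obtain ⟨hmI, hmp, hmr, hmo⟩ := hm
    have hmI' := hmI
    rw [mem_Ioc] at hmI'
    by_cases hsq : sqz z m
    · exact mem_union_right _ (mem_filter.2 ⟨hmI, hsq⟩)
    · refine mem_union_left _ ?_
      rcases hcls m hz hz1 hz1' (by omega) (by omega) hmr hmp hmo hsq with h | h
      · refine mem_union_left _ ?_
        rw [hA1, mem_filter, hP]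
        exact ⟨hmI, h⟩
      · refine mem_union_right _ ?_
        rw [hA2, mem_filter, hP, hQ]
        exact ⟨hmI, h⟩
  have hcard : (((Ioc x (x + l)).filter (fun m => ¬ m.Prime ∧ rou z m ∧ omz z z1 m = 1)).card : ℝ) ≤
      (A1.card : ℝ) + A2.card + ((Ioc x (x + l)).filter (fun m => sqz z m)).card := by
    have h1 := card_le_card hsub
    have h2 := card_union_le (A1 ∪ A2) ((Ioc x (x + l)).filter (fun m => sqz z m))
    have h3 := card_union_le A1 A2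
    have h4 : ((Ioc x (x + l)).filter (fun m => ¬ m.Prime ∧ rou z m ∧ omz z z1 m = 1)).card ≤
      A1.card + A2.card + ((Ioc x (x + l)).filter (fun m => sqz z m)).card := by omega
    exact_mod_cast h4
  have hb1 : (A1.card : ℝ) ≤ (1 + 1 / 20000) * l * ∑ p ∈ P, 1 / ((p : ℝ) * Real.log ((x : ℝ) / p)) := by
    refine hc1 ℕ P (fun p => p) A1 (by rw [hA1]; exact filter_subset _ _) ?_ ?_
    · intro m hm
      rw [hA1, mem_filter] at hm
      exact hm.2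
    · intro p hp
      rw [hP] at hp
      obtain ⟨h1, h2, h3⟩ := Cnt_PE hp
      refine ⟨h1.one_lt.le, hsz1 p ?_⟩
      rw [one_mul]
      exact h3
  have hb2 : (A2.card : ℝ) ≤ (1 + 1 / 20000) * l *
      ∑ p ∈ P, ∑ q ∈ Q p, 1 / ((p : ℝ) * q * Real.log ((x : ℝ) / (p * q))) := by
    have h := hc1 ((_ : ℕ) × ℕ) (P.sigma Q) (fun i => i.1 * i.2) A2 (by rw [hA2]; exact filter_subset _ _) ?_ ?_
    · refine h.trans (le_of_eq ?_)
      rw [sum_sigma]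
      push_cast
      rfl
    · intro m hm
      rw [hA2, mem_filter] at hm
      obtain ⟨-, p, hp, q, hq, r, hr1, hr2⟩ := hm
      exact ⟨⟨p, q⟩, mem_sigma.2 ⟨hp, hq⟩, r, hr1, hr2⟩
    · rintro ⟨p, q⟩ hi
      rw [mem_sigma] at hi
      obtain ⟨hp, hq⟩ := hi
      simp only at hp hq
      rw [hP] at hp
      rw [hQ, mem_filter] at hq
      obtain ⟨h1, h2, h3⟩ := Cnt_PE hp
      obtain ⟨-, hqp, hq1, hq2⟩ := hq
      refine ⟨Nat.mul_pos h1.pos hqp.pos, hsz2 (p * q) ?_⟩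
      have hq0 : (0 : ℝ) < (N : ℝ) ^ (3540 / 10000 : ℝ) := by positivity
      have h4 : (p : ℝ) * q ^ 2 ≤ 16 * N := by exact_mod_cast hq2
      have h5 : ((p * q : ℕ) : ℝ) * (N : ℝ) ^ (3540 / 10000 : ℝ) ≤ 16 * N := by
        push_cast
        calc (p : ℝ) * q * (N : ℝ) ^ (3540 / 10000 : ℝ) ≤ (p : ℝ) * q * q :=
              mul_le_mul_of_nonneg_left hq1.le (by positivity)
          _ = (p : ℝ) * q ^ 2 := by ring
          _ ≤ 16 * N := h4
      have h6 : (N : ℝ) = (N : ℝ) ^ (6460 / 10000 : ℝ) * (N : ℝ) ^ (3540 / 10000 : ℝ) := by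
        rw [← Real.rpow_add hNpos]
        norm_num
      have h7 : ((p * q : ℕ) : ℝ) * (N : ℝ) ^ (3540 / 10000 : ℝ) ≤
          16 * (N : ℝ) ^ (6460 / 10000 : ℝ) * (N : ℝ) ^ (3540 / 10000 : ℝ) := by
        rw [mul_assoc 16, ← h6]
        exact h5
      exact le_of_mul_le_mul_right h7 hq0
  rw [← hP] at hs1 hs2
  have hs2' : ∑ p ∈ P, ∑ q ∈ Q p, 1 / ((p : ℝ) * q * Real.log ((x : ℝ) / (p * q))) ≤ (540 / 10000) / Real.log N := by
    rw [hQ]
    exact hs2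
  have hb1' : (A1.card : ℝ) ≤ (1 + 1 / 20000) * l * ((7355 / 10000) / Real.log N) :=
    hb1.trans (mul_le_mul_of_nonneg_left hs1 (by positivity))
  have hb2' : (A2.card : ℝ) ≤ (1 + 1 / 20000) * l * ((540 / 10000) / Real.log N) :=
    hb2.trans (mul_le_mul_of_nonneg_left hs2' (by positivity))
  have hlL : (0 : ℝ) ≤ l / Real.log N := by positivity
  calc _ ≤ (A1.card : ℝ) + A2.card + ((Ioc x (x + l)).filter (fun m => sqz z m)).card := hcard
    _ ≤ (1 + 1 / 20000) * l * ((7355 / 10000) / Real.log N) + (1 + 1 / 20000) * l * ((540 / 10000) / Real.log N)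
        + 1 / 20000 * l / Real.log N := add_le_add (add_le_add hb1' hb2') hr
    _ = ((1 + 1 / 20000) * (7895 / 10000) + 1 / 20000) * (l / Real.log N) := by ring
    _ ≤ (790 / 1000) * (l / Real.log N) := mul_le_mul_of_nonneg_right (by norm_num) hlL
    _ = (790 / 1000) * l / Real.log N := by ring

open Classical in
theorem covm (K : ℕ) (ε e0 : ℝ) (hε : 0 < ε) (he0 : 0 < e0) : ∃ N0 : ℕ, ∀ N : ℕ, N0 ≤ N → ∀ x l : ℕ, N ≤ 8 * x → x ≤ 8 * N →
    (x : ℝ) / Real.log N ^ K ≤ l → l ≤ x → ∀ (τ : Type) (ι : Finset τ) (d : τ → ℕ) (A : Finset ℕ) (w : ℕ → ℕ), A ⊆ Ioc x (x + l) →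
      (∀ m ∈ A, w m ≤ (ι.filter (fun i => ∃ r : ℕ, r.Prime ∧ m = d i * r)).card) → (∀ i ∈ ι, 1 ≤ d i ∧ (N : ℝ) ^ e0 * d i ≤ x) →
      ∑ m ∈ A, (w m : ℝ) ≤ (1 + ε) * l * ∑ i ∈ ι, 1 / (d i * Real.log ((x : ℝ) / d i)) := by
  obtain ⟨N0, hN0⟩ := pnt_int K ε e0 hε he0
  refine ⟨max 8 N0, fun N hN x l hx1 hx2 hl hlx τ ι d A w hA hAd hd => ?_⟩
  have hN8 : 8 ≤ N := le_trans (le_max_left _ _) hN
  have hNN : N0 ≤ N := le_trans (le_max_right _ _) hN
  have hx3 : x ≤ N ^ 2 := by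
    calc x ≤ 8 * N := hx2
      _ ≤ N * N := Nat.mul_le_mul_right _ hN8
      _ = N ^ 2 := (sq N).symm
  have h1 : ∑ m ∈ A, w m ≤ ∑ i ∈ ι, ((Ioc (x / d i) ((x + l) / d i)).filter Nat.Prime).card := by
    calc ∑ m ∈ A, w m ≤ ∑ m ∈ A, (ι.filter (fun i => ∃ r : ℕ, r.Prime ∧ m = d i * r)).card := sum_le_sum hAd
      _ = ∑ m ∈ A, ∑ i ∈ ι, (if (∃ r : ℕ, r.Prime ∧ m = d i * r) then 1 else 0) := by
          refine sum_congr rfl fun m _ => ?_
          rw [card_filter]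
      _ = ∑ i ∈ ι, ∑ m ∈ A, (if (∃ r : ℕ, r.Prime ∧ m = d i * r) then 1 else 0) := sum_comm
      _ = ∑ i ∈ ι, (A.filter (fun m => ∃ r : ℕ, r.Prime ∧ m = d i * r)).card := by
          refine sum_congr rfl fun i _ => ?_
          rw [card_filter]
      _ ≤ ∑ i ∈ ι, ((Ioc (x / d i) ((x + l) / d i)).filter Nat.Prime).card := by
          refine sum_le_sum fun i hi => ?_
          have hdi : 0 < d i := (hd i hi).1
          have hsub : A.filter (fun m => ∃ r : ℕ, r.Prime ∧ m = d i * r) ⊆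
              ((Ioc (x / d i) ((x + l) / d i)).filter Nat.Prime).image (fun r => d i * r) := by
            intro m hm
            rw [mem_filter] at hm
            obtain ⟨hmA, r, hr, hmr⟩ := hm
            have hmI := hA hmA
            rw [mem_Ioc] at hmI
            rw [mem_image]
            refine ⟨r, ?_, hmr.symm⟩
            rw [mem_filter, mem_Ioc]
            refine ⟨⟨?_, ?_⟩, hr⟩
            · rw [Nat.div_lt_iff_lt_mul hdi, mul_comm, ← hmr]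
              exact hmI.1
            · rw [Nat.le_div_iff_mul_le hdi, mul_comm, ← hmr]
              exact hmI.2
          exact (card_le_card hsub).trans card_image_le
  have h2 : ∑ m ∈ A, (w m : ℝ) ≤ ∑ i ∈ ι, (((Ioc (x / d i) ((x + l) / d i)).filter Nat.Prime).card : ℝ) := by
    have h3 : ((∑ m ∈ A, w m : ℕ) : ℝ) ≤ ((∑ i ∈ ι, ((Ioc (x / d i) ((x + l) / d i)).filter Nat.Prime).card : ℕ) : ℝ) :=
      Nat.cast_le.2 h1
    push_cast at h3
    exact h3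
  refine h2.trans ?_
  rw [mul_sum]
  refine sum_le_sum fun i hi => ?_
  have h4 := hN0 N hNN x l (d i) (hd i hi).1 (hd i hi).2 hx3 hl hlx
  rw [mul_one_div]
  exact h4

open Classical in
theorem cnt_zero (K : ℕ) : ∃ N0 : ℕ, ∀ N : ℕ, N0 ≤ N → ∀ z z1 x l : ℕ, (N : ℝ) ^ (2082 / 10000 : ℝ) ≤ z →
    (N : ℝ) ^ (3540 / 10000 : ℝ) ≤ z1 → (z1 : ℝ) ≤ (N : ℝ) ^ (3541 / 10000 : ℝ) → N ≤ 8 * x → x ≤ 8 * N →
    (x : ℝ) / Real.log N ^ K ≤ l → l ≤ x →
      (((Ioc x (x + l)).filter (fun m => ¬ m.Prime ∧ rou z m ∧ omz z z1 m = 0)).card : ℝ) ≤ (603 / 1000) * l / Real.log N := by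
  obtain ⟨N1, hN1⟩ := cov K (1 / 20000) (1 / 20) (by norm_num) (by norm_num)
  obtain ⟨N3, hN3⟩ := cls_zero
  obtain ⟨N4, hN4⟩ := s0_le
  obtain ⟨N6, hN6⟩ := Cnt_size (1 / 2) 4 (by norm_num) (by norm_num)
  obtain ⟨N8, hN8⟩ := Cnt_log 1 1 1 (by norm_num) (by norm_num)
  refine ⟨1 + N1 + N3 + N4 + N6 + N8, fun N hN z z1 x l hz hz1 hz1' hx1 hx2 hl hlx => ?_⟩
  have hc1 := hN1 N (by omega) x l hx1 hx2 hl hlx
  have hcls := hN3 N (by omega) z z1
  have hs1 := hN4 N (by omega) x hx1 hx2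
  have hsz1 := hN6 N (by omega) x hx1
  obtain ⟨hL1, -⟩ := hN8 N (by omega)
  have hL : (0 : ℝ) < Real.log N := by linarith
  have hNpos : (0 : ℝ) < N := by
    have : 0 < N := by omega
    exact_mod_cast this
  have hl0 : (0 : ℝ) ≤ l := Nat.cast_nonneg l
  obtain ⟨P, hP⟩ : ∃ P, P = (Icc 1 (16 * N)).filter (fun p : ℕ => p.Prime ∧ (N : ℝ) ^ (3540 / 10000 : ℝ) < p ∧ p ^ 2 ≤ 16 * N) := ⟨_, rfl⟩
  obtain ⟨A1, hA1⟩ : ∃ A1 : Finset ℕ, A1 = (Ioc x (x + l)).filter (fun m => ¬ m.Prime ∧ rou z m ∧ omz z z1 m = 0) := ⟨_, rfl⟩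
  rw [← hA1]
  have hb1 : (A1.card : ℝ) ≤ (1 + 1 / 20000) * l * ∑ p ∈ P, 1 / ((p : ℝ) * Real.log ((x : ℝ) / p)) := by
    refine hc1 ℕ P (fun p => p) A1 (by rw [hA1]; exact filter_subset _ _) ?_ ?_
    · intro m hm
      rw [hA1, mem_filter, mem_Ioc] at hm
      obtain ⟨hmI, hmp, hmr, hmo⟩ := hm
      rw [hP]
      exact hcls m hz hz1 hz1' (by omega) (by omega) hmr hmp hmo
    · intro p hp
      rw [hP, mem_filter] at hp
      obtain ⟨-, h1, h2, h3⟩ := hp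
      refine ⟨h1.one_lt.le, hsz1 p ?_⟩
      have h10 : (4 * (N : ℝ) ^ (1 / 2 : ℝ)) ^ 2 = 16 * N := by
        rw [mul_pow, ← Real.rpow_natCast, ← Real.rpow_natCast, ← Real.rpow_mul hNpos.le]
        norm_num
      have h11 : (p : ℝ) ^ 2 ≤ (4 * (N : ℝ) ^ (1 / 2 : ℝ)) ^ 2 := by
        rw [h10]
        exact_mod_cast h3
      exact le_of_sq_le_sq h11 (by positivity)
  rw [← hP] at hs1
  have hb1' : (A1.card : ℝ) ≤ (1 + 1 / 20000) * l * ((6028 / 10000) / Real.log N) :=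
    hb1.trans (mul_le_mul_of_nonneg_left hs1 (by positivity))
  have hlL : (0 : ℝ) ≤ l / Real.log N := by positivity
  calc _ ≤ (1 + 1 / 20000) * l * ((6028 / 10000) / Real.log N) := hb1'
    _ = ((1 + 1 / 20000) * (6028 / 10000)) * (l / Real.log N) := by ring
    _ ≤ (603 / 1000) * (l / Real.log N) := mul_le_mul_of_nonneg_right (by norm_num) hlL
    _ = (603 / 1000) * l / Real.log N := by ring

open Classical in
theorem cnt_four (K : ℕ) : ∃ N0 : ℕ, ∀ N : ℕ, N0 ≤ N → ∀ z z1 x l : ℕ, (N : ℝ) ^ (2082 / 10000 : ℝ) ≤ z →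
    (N : ℝ) ^ (3540 / 10000 : ℝ) ≤ z1 → (z1 : ℝ) ≤ (N : ℝ) ^ (3541 / 10000 : ℝ) → N ≤ 8 * x → x ≤ 8 * N →
    (x : ℝ) / Real.log N ^ K ≤ l → l ≤ x →
      (((Ioc x (x + l)).filter (fun m => ¬ m.Prime ∧ rou z m ∧ omz z z1 m = 3 ∧ ¬ IsT N m)).card : ℝ) +
        (((Ioc x (x + l)).filter (fun m => ¬ m.Prime ∧ rou z m ∧ omz z z1 m = 4)).card : ℝ) ≤
          (10 / 1000) * l / Real.log N := by
  obtain ⟨N1, hN1⟩ := cov K (1 / 20000) (1 / 20) (by norm_num) (by norm_num)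
  obtain ⟨N2, hN2⟩ := rareN K (1 / 20000) (by norm_num)
  obtain ⟨N3, hN3⟩ := cls_three
  obtain ⟨N5, hN5⟩ := cls_four
  obtain ⟨N4, hN4⟩ := s4_le
  obtain ⟨N6, hN6⟩ := Cnt_size (9 / 10) 1 (by norm_num) (by norm_num)
  obtain ⟨N8, hN8⟩ := Cnt_log 1 1 1 (by norm_num) (by norm_num)
  refine ⟨1 + N1 + N2 + N3 + N4 + N5 + N6 + N8, fun N hN z z1 x l hz hz1 hz1' hx1 hx2 hl hlx => ?_⟩
  have hc1 := hN1 N (by omega) x l hx1 hx2 hl hlx
  have hr := hN2 N (by omega) z x l hz hx1 hx2 hl hlx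
  have hcls3 := hN3 N (by omega) z z1
  have hcls4 := hN5 N (by omega) z z1
  have hs1 := hN4 N (by omega) x hx1 hx2
  have hsz1 := hN6 N (by omega) x hx1
  obtain ⟨hL1, -⟩ := hN8 N (by omega)
  have hL : (0 : ℝ) < Real.log N := by linarith
  have hNpos : (0 : ℝ) < N := by
    have : 0 < N := by omega
    exact_mod_cast this
  have hl0 : (0 : ℝ) ≤ l := Nat.cast_nonneg l
  obtain ⟨P, hP⟩ : ∃ P, P = PE N (2082 / 10000) (3 / 10) := ⟨_, rfl⟩
  obtain ⟨A1, hA1⟩ : ∃ A1 : Finset ℕ, A1 = (Ioc x (x + l)).filter (fun m => IsF N m) := ⟨_, rfl⟩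
  obtain ⟨B3, hB3⟩ : ∃ B3 : Finset ℕ, B3 = (Ioc x (x + l)).filter
    (fun m => ¬ m.Prime ∧ rou z m ∧ omz z z1 m = 3 ∧ ¬ IsT N m) := ⟨_, rfl⟩
  obtain ⟨B4, hB4⟩ : ∃ B4 : Finset ℕ, B4 = (Ioc x (x + l)).filter
    (fun m => ¬ m.Prime ∧ rou z m ∧ omz z z1 m = 4) := ⟨_, rfl⟩
  obtain ⟨Q, hQ⟩ : ∃ Q : Finset ℕ, Q = (Ioc x (x + l)).filter (fun m => sqz z m) := ⟨_, rfl⟩
  rw [← hB3, ← hB4]
  rw [← hQ] at hr
  have hdis : Disjoint B3 B4 := by
    rw [disjoint_left]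
    intro m h3 h4
    rw [hB3, mem_filter] at h3
    rw [hB4, mem_filter] at h4
    have e3 := h3.2.2.2.1
    have e4 := h4.2.2.2
    omega
  have hsub : B3 ∪ B4 ⊆ A1 ∪ Q := by
    intro m hm
    rcases mem_union.1 hm with h3 | h4
    · rw [hB3, mem_filter] at h3
      obtain ⟨hmI, hmp, hmr, hmo, hmT⟩ := h3
      have hmI' := hmI
      rw [mem_Ioc] at hmI'
      by_cases hsq : sqz z m
      · exact mem_union_right _ (by rw [hQ]; exact mem_filter.2 ⟨hmI, hsq⟩)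
      · refine mem_union_left _ ?_
        rw [hA1, mem_filter]
        refine ⟨hmI, ?_⟩
        rcases hcls3 m hz hz1 hz1' (by omega) (by omega) hmr hmo hsq with h | h
        · exact absurd h hmT
        · exact h
    · rw [hB4, mem_filter] at h4
      obtain ⟨hmI, hmp, hmr, hmo⟩ := h4
      have hmI' := hmI
      rw [mem_Ioc] at hmI'
      refine mem_union_left _ ?_
      rw [hA1, mem_filter]
      exact ⟨hmI, hcls4 m hz hz1 hz1' (by omega) (by omega) hmr (by omega)⟩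
  have hcard : (B3.card : ℝ) + B4.card ≤ A1.card + Q.card := by
    have h1 := card_le_card hsub
    have h2 := card_union_le A1 Q
    rw [card_union_of_disjoint hdis] at h1
    have h4 : B3.card + B4.card ≤ A1.card + Q.card := by omega
    exact_mod_cast h4
  have hb1 : (A1.card : ℝ) ≤ (1 + 1 / 20000) * l *
      ∑ p ∈ P, ∑ q ∈ P.filter (fun q => p ≤ q), ∑ r ∈ P.filter (fun r => q ≤ r ∧ p * q * r ^ 2 ≤ 16 * N),
        1 / ((p : ℝ) * q * r * Real.log ((x : ℝ) / (p * q * r))) := by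
    have h := hc1 ((_ : ℕ) × (_ : ℕ) × ℕ)
      (P.sigma (fun p => (P.filter (fun q => p ≤ q)).sigma
        (fun q => P.filter (fun r => q ≤ r ∧ p * q * r ^ 2 ≤ 16 * N))))
      (fun i => i.1 * i.2.1 * i.2.2) A1
      (by rw [hA1]; exact filter_subset _ _) ?_ ?_
    · refine h.trans (le_of_eq ?_)
      rw [sum_sigma]
      congr 1
      refine sum_congr rfl fun p _ => ?_
      rw [sum_sigma]
      push_cast
      rfl
    · intro m hm
      rw [hA1, mem_filter, mem_Ioc] at hm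
      obtain ⟨hmI, p, hp, q, hq, r, hr, s, hs, hms⟩ := hm
      rw [← hP] at hp hq hr
      exact ⟨⟨p, q, r⟩, mem_sigma.2 ⟨hp, mem_sigma.2 ⟨hq, hr⟩⟩, s, hs, hms⟩
    · rintro ⟨p, q, r⟩ hi
      rw [mem_sigma, mem_sigma] at hi
      obtain ⟨hp, hq, hr⟩ := hi
      simp only at hp hq hr
      rw [mem_filter] at hq hr
      have hq' := hq.1
      have hr' := hr.1
      rw [hP] at hp hq' hr'
      obtain ⟨h1, h2, h3⟩ := Cnt_PE hp
      obtain ⟨g1, g2, g3⟩ := Cnt_PE hq'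
      obtain ⟨f1, f2, f3⟩ := Cnt_PE hr'
      refine ⟨Nat.mul_pos (Nat.mul_pos h1.pos g1.pos) f1.pos, hsz1 (p * q * r) ?_⟩
      rw [one_mul]
      push_cast
      calc (p : ℝ) * q * r ≤ (N : ℝ) ^ (3 / 10 : ℝ) * (N : ℝ) ^ (3 / 10 : ℝ) * (N : ℝ) ^ (3 / 10 : ℝ) :=
            mul_le_mul (mul_le_mul h3 g3 (by positivity) (by positivity)) f3 (by positivity) (by positivity)
        _ = (N : ℝ) ^ (9 / 10 : ℝ) := by
            rw [← Real.rpow_add hNpos, ← Real.rpow_add hNpos]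
            norm_num
  rw [← hP] at hs1
  have hb1' : (A1.card : ℝ) ≤ (1 + 1 / 20000) * l * ((98 / 10000) / Real.log N) :=
    hb1.trans (mul_le_mul_of_nonneg_left hs1 (by positivity))
  have hlL : (0 : ℝ) ≤ l / Real.log N := by positivity
  calc _ ≤ (A1.card : ℝ) + Q.card := hcard
    _ ≤ (1 + 1 / 20000) * l * ((98 / 10000) / Real.log N) + 1 / 20000 * l / Real.log N := add_le_add hb1' hr
    _ = ((1 + 1 / 20000) * (98 / 10000) + 1 / 20000) * (l / Real.log N) := by ring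
    _ ≤ (10 / 1000) * (l / Real.log N) := mul_le_mul_of_nonneg_right (by norm_num) hlL
    _ = (10 / 1000) * l / Real.log N := by ring

open Classical in
/-- the three small primes give three pairs -/
private theorem Cnt_three (N m : ℕ) (P : Finset ℕ) (hP : P = PE N (2082 / 10000) (3541 / 10000)) (hT : IsT N m) :
    3 ≤ ((P.sigma (fun p => P.filter (fun q => p < q))).filter
      (fun i : (_ : ℕ) × ℕ => ∃ r : ℕ, r.Prime ∧ m = i.1 * i.2 * r)).card := by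
  obtain ⟨p, hp, q, hq, r, hr, hpq, hqr, hm⟩ := hT
  rw [← hP] at hp hq hr
  have hpp : p.Prime := by rw [hP] at hp; exact (Cnt_PE hp).1
  have hqp : q.Prime := by rw [hP] at hq; exact (Cnt_PE hq).1
  have hrp : r.Prime := by rw [hP] at hr; exact (Cnt_PE hr).1
  have hsub : ({⟨p, q⟩, ⟨p, r⟩, ⟨q, r⟩} : Finset ((_ : ℕ) × ℕ)) ⊆
      (P.sigma (fun p => P.filter (fun q => p < q))).filter
      (fun i : (_ : ℕ) × ℕ => ∃ r : ℕ, r.Prime ∧ m = i.1 * i.2 * r) := by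
    intro i hi
    rw [mem_insert, mem_insert, mem_singleton] at hi
    rw [mem_filter, mem_sigma]
    rcases hi with rfl | rfl | rfl
    · exact ⟨⟨hp, mem_filter.2 ⟨hq, hpq⟩⟩, r, hrp, hm⟩
    · exact ⟨⟨hp, mem_filter.2 ⟨hr, hpq.trans hqr⟩⟩, q, hqp, by rw [hm]; ring⟩
    · exact ⟨⟨hq, mem_filter.2 ⟨hr, hqr⟩⟩, p, hpp, by rw [hm]; ring⟩
  have hcard : ({⟨p, q⟩, ⟨p, r⟩, ⟨q, r⟩} : Finset ((_ : ℕ) × ℕ)).card = 3 := by
    rw [card_eq_three]
    refine ⟨⟨p, q⟩, ⟨p, r⟩, ⟨q, r⟩, ?_, ?_, ?_, rfl⟩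
    · intro h
      have h2 : q = r := by
        have := congrArg Sigma.snd h
        simpa using this
      omega
    · intro h
      have h2 : p = q := by
        have := congrArg Sigma.fst h
        simpa using this
      omega
    · intro h
      have h2 : p = q := by
        have := congrArg Sigma.fst h
        simpa using this
      omega
  rw [← hcard]
  exact card_le_card hsub

open Classical in
theorem cnt_pair (K : ℕ) : ∃ N0 : ℕ, ∀ N : ℕ, N0 ≤ N → ∀ z z1 x l : ℕ, (N : ℝ) ^ (2082 / 10000 : ℝ) ≤ z →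
    (N : ℝ) ^ (3540 / 10000 : ℝ) ≤ z1 → (z1 : ℝ) ≤ (N : ℝ) ^ (3541 / 10000 : ℝ) → N ≤ 8 * x → x ≤ 8 * N →
    (x : ℝ) / Real.log N ^ K ≤ l → l ≤ x →
      (((Ioc x (x + l)).filter (fun m => ¬ m.Prime ∧ rou z m ∧ omz z z1 m = 2)).card : ℝ) +
        3 * (((Ioc x (x + l)).filter (fun m => ¬ m.Prime ∧ rou z m ∧ omz z z1 m = 3 ∧ IsT N m)).card : ℝ) ≤
          (330 / 1000) * l / Real.log N := by
  obtain ⟨N1, hN1⟩ := covm K (1 / 20000) (1 / 20) (by norm_num) (by norm_num)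
  obtain ⟨N2, hN2⟩ := rareN K (1 / 20000) (by norm_num)
  obtain ⟨N3, hN3⟩ := cls_two
  obtain ⟨N4, hN4⟩ := s3_le
  obtain ⟨N6, hN6⟩ := Cnt_size (7082 / 10000) 1 (by norm_num) (by norm_num)
  obtain ⟨N8, hN8⟩ := Cnt_log 1 1 1 (by norm_num) (by norm_num)
  refine ⟨1 + N1 + N2 + N3 + N4 + N6 + N8, fun N hN z z1 x l hz hz1 hz1' hx1 hx2 hl hlx => ?_⟩
  have hc1 := hN1 N (by omega) x l hx1 hx2 hl hlx
  have hr := hN2 N (by omega) z x l hz hx1 hx2 hl hlx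
  have hcls := hN3 N (by omega) z z1
  have hs1 := hN4 N (by omega) x hx1 hx2
  have hsz1 := hN6 N (by omega) x hx1
  obtain ⟨hL1, -⟩ := hN8 N (by omega)
  have hL : (0 : ℝ) < Real.log N := by linarith
  have hNpos : (0 : ℝ) < N := by
    have : 0 < N := by omega
    exact_mod_cast this
  have hl0 : (0 : ℝ) ≤ l := Nat.cast_nonneg l
  obtain ⟨P, hP⟩ : ∃ P, P = PE N (2082 / 10000) (3541 / 10000) := ⟨_, rfl⟩
  obtain ⟨Q, hQ⟩ : ∃ Q : Finset ℕ, Q = (Ioc x (x + l)).filter (fun m => sqz z m) := ⟨_, rfl⟩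
  rw [← hQ] at hr
  obtain ⟨B2, hB2⟩ : ∃ B2 : Finset ℕ, B2 = (Ioc x (x + l)).filter (fun m => ¬ m.Prime ∧ rou z m ∧ omz z z1 m = 2) := ⟨_, rfl⟩
  obtain ⟨B3, hB3⟩ : ∃ B3 : Finset ℕ, B3 = (Ioc x (x + l)).filter
    (fun m => ¬ m.Prime ∧ rou z m ∧ omz z z1 m = 3 ∧ IsT N m) := ⟨_, rfl⟩
  obtain ⟨ι, hι⟩ : ∃ ι : Finset ((_ : ℕ) × ℕ), ι = P.sigma (fun p => P.filter (fun q => p < q)) := ⟨_, rfl⟩
  obtain ⟨A, hA⟩ : ∃ A : Finset ℕ, A = (B2 \ Q) ∪ B3 := ⟨_, rfl⟩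
  obtain ⟨w, hw⟩ : ∃ w : ℕ → ℕ, w = fun m => if m ∈ B3 then 3 else 1 := ⟨_, rfl⟩
  rw [← hB2, ← hB3]
  have hdis : ∀ m ∈ B2, m ∉ B3 := by
    intro m h2 h3
    rw [hB2, mem_filter] at h2
    rw [hB3, mem_filter] at h3
    have e2 := h2.2.2.2
    have e3 := h3.2.2.2.1
    omega
  have hAI : A ⊆ Ioc x (x + l) := by
    intro m hm
    rw [hA, mem_union, mem_sdiff] at hm
    rcases hm with ⟨h2, -⟩ | h3
    · rw [hB2, mem_filter] at h2
      exact h2.1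
    · rw [hB3, mem_filter] at h3
      exact h3.1
  have hsumA : ((B2 \ Q).card : ℝ) + 3 * (B3.card : ℝ) = ∑ m ∈ A, (w m : ℝ) := by
    have hd : Disjoint (B2 \ Q) B3 := by
      rw [disjoint_left]
      intro m h2 h3
      exact hdis m (mem_sdiff.1 h2).1 h3
    rw [hA, sum_union hd]
    have e1 : ∑ m ∈ B2 \ Q, (w m : ℝ) = (B2 \ Q).card := by
      rw [← nsmul_one, ← sum_const]
      refine sum_congr rfl fun m hm => ?_
      rw [hw]
      simp only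
      rw [if_neg (hdis m (mem_sdiff.1 hm).1)]
      norm_num
    have e2 : ∑ m ∈ B3, (w m : ℝ) = 3 * B3.card := by
      rw [mul_comm, ← nsmul_eq_mul, ← sum_const]
      refine sum_congr rfl fun m hm => ?_
      rw [hw]
      simp only
      rw [if_pos hm]
      norm_num
    rw [e1, e2]
  have hcard : (B2.card : ℝ) + 3 * (B3.card : ℝ) ≤ ∑ m ∈ A, (w m : ℝ) + Q.card := by
    have h1 : B2.card ≤ (B2 \ Q).card + Q.card := by
      have := card_le_card (show B2 ⊆ (B2 \ Q) ∪ Q by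
        intro m hm
        by_cases h : m ∈ Q
        · exact mem_union_right _ h
        · exact mem_union_left _ (mem_sdiff.2 ⟨hm, h⟩))
      exact this.trans (card_union_le _ _)
    have h2 : (B2.card : ℝ) ≤ (B2 \ Q).card + Q.card := by exact_mod_cast h1
    linarith [hsumA]
  have hb1 : ∑ m ∈ A, (w m : ℝ) ≤ (1 + 1 / 20000) * l *
      ∑ p ∈ P, ∑ q ∈ P.filter (fun q => p < q), 1 / ((p : ℝ) * q * Real.log ((x : ℝ) / (p * q))) := by
    have h := hc1 ((_ : ℕ) × ℕ) ι (fun i => i.1 * i.2) A w hAI ?_ ?_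
    · refine h.trans (le_of_eq ?_)
      rw [hι, sum_sigma]
      push_cast
      rfl
    · intro m hm
      by_cases h3 : m ∈ B3
      · rw [hw]
        simp only
        rw [if_pos h3, hι]
        rw [hB3, mem_filter] at h3
        exact Cnt_three N m P hP h3.2.2.2.2
      · rw [hw]
        simp only
        rw [if_neg h3, Nat.one_le_iff_ne_zero, ← Nat.pos_iff_ne_zero, card_pos]
        rw [hA, mem_union, mem_sdiff] at hm
        rcases hm with ⟨h2, hnq⟩ | h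
        · rw [hB2, mem_filter] at h2
          obtain ⟨hmI, hmp, hmr, hmo⟩ := h2
          have hmI' := hmI
          rw [mem_Ioc] at hmI'
          have hsq : ¬ sqz z m := fun h => hnq (by rw [hQ]; exact mem_filter.2 ⟨hmI, h⟩)
          obtain ⟨p, hp, q, hq, r, hr1, hr2⟩ := hcls m hz hz1 hz1' (by omega) (by omega) hmr hmp hmo hsq
          rw [← hP] at hp hq
          refine ⟨⟨p, q⟩, mem_filter.2 ⟨?_, r, hr1, hr2⟩⟩
          rw [hι]
          exact mem_sigma.2 ⟨hp, hq⟩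
        · exact absurd h h3
    · rintro ⟨p, q⟩ hi
      rw [hι, mem_sigma] at hi
      obtain ⟨hp, hq⟩ := hi
      simp only at hp hq
      rw [mem_filter] at hq
      have hq' := hq.1
      rw [hP] at hp hq'
      obtain ⟨h1, h2, h3⟩ := Cnt_PE hp
      obtain ⟨g1, g2, g3⟩ := Cnt_PE hq'
      refine ⟨Nat.mul_pos h1.pos g1.pos, hsz1 (p * q) ?_⟩
      rw [one_mul]
      push_cast
      calc (p : ℝ) * q ≤ (N : ℝ) ^ (3541 / 10000 : ℝ) * (N : ℝ) ^ (3541 / 10000 : ℝ) :=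
            mul_le_mul h3 g3 (by positivity) (by positivity)
        _ = (N : ℝ) ^ (7082 / 10000 : ℝ) := by
            rw [← Real.rpow_add hNpos]
            norm_num
  rw [← hP] at hs1
  have hb1' : ∑ m ∈ A, (w m : ℝ) ≤ (1 + 1 / 20000) * l * ((3285 / 10000) / Real.log N) :=
    hb1.trans (mul_le_mul_of_nonneg_left hs1 (by positivity))
  have hlL : (0 : ℝ) ≤ l / Real.log N := by positivity
  calc _ ≤ ∑ m ∈ A, (w m : ℝ) + Q.card := hcard
    _ ≤ (1 + 1 / 20000) * l * ((3285 / 10000) / Real.log N)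
        + 1 / 20000 * l / Real.log N := add_le_add hb1' hr
    _ = ((1 + 1 / 20000) * (3285 / 10000) + 1 / 20000) * (l / Real.log N) := by ring
    _ ≤ (330 / 1000) * (l / Real.log N) := mul_le_mul_of_nonneg_right (by norm_num) hlL
    _ = (330 / 1000) * l / Real.log N := by ring

end Pool.Agent.H9.TN
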